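import Pool.Agent.H84.SS.Targets

/-!
# From inequalities on sets to inequalities almost everywhere
-/

set_option autoImplicit false

namespace Pool.Agent.H14.SS

open MeasureTheory Filter Topology Set ProbabilityTheory
open scoped ENNReal ComplexConjugate
open Pool.Agent.H84.SS

universe u v

theorem quad_bound (z w : ℂ) (m v : ℝ) (hm : 0 < m) (h : ‖w‖ ^ 2 ≤ m * v) :
    2 * (conj z * w).re - ‖z‖ ^ 2 * m ≤ v := by
  have h1 : (conj z * w).re ≤ ‖z‖ * ‖w‖ := by
    calc (conj z * w).re ≤ ‖conj z * w‖ := Complex.re_le_norm _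
      _ = ‖z‖ * ‖w‖ := by rw [norm_mul, RCLike.norm_conj]
  have h2 : m * (2 * (conj z * w).re - ‖z‖ ^ 2 * m) ≤ m * v := by
    nlinarith [sq_nonneg (‖w‖ - ‖z‖ * m), mul_le_mul_of_nonneg_left h1 hm.le]
  exact le_of_mul_le_mul_left h2 hm

theorem pf_AEI : M_AEI.{u} := by
  intro X I m0 μ _ hI R V hR hV hRi hVi hQ
  have key : ∀ z : ℂ, ∀ᵐ x ∂μ, 2 * (conj z * R x).re - ‖z‖ ^ 2 ≤ V x := by
    intro z
    have hF : StronglyMeasurable[I] (fun x => 2 * (conj z * R x).re - ‖z‖ ^ 2) := by
      have h1 : Continuous fun w : ℂ => 2 * (conj z * w).re - ‖z‖ ^ 2 := by fun_prop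
      exact h1.comp_stronglyMeasurable hR
    have hre : Integrable (fun x => (conj z * R x).re) μ := (hRi.const_mul (conj z)).re
    have hFi : Integrable (fun x => 2 * (conj z * R x).re - ‖z‖ ^ 2) μ :=
      (hre.const_mul 2).sub (integrable_const _)
    refine ae_of_ae_trim hI ?_
    refine ae_le_of_forall_setIntegral_le (hFi.trim hI hF) (hVi.trim hI hV) fun Q hQm _ => ?_
    rw [← setIntegral_trim hI hF hQm, ← setIntegral_trim hI hV hQm]
    rcases eq_or_lt_of_le (measureReal_nonneg (μ := μ) (s := Q)) with h0 | h0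
    · have h1 : μ.restrict Q = 0 := by
        rw [Measure.restrict_eq_zero]
        exact (measureReal_eq_zero_iff).1 h0.symm
      rw [h1, integral_zero_measure, integral_zero_measure]
    · have h1 : ∫ x in Q, (conj z * R x).re ∂μ = (conj z * ∫ x in Q, R x ∂μ).re := by
        rw [← integral_const_mul]
        exact integral_re (hRi.const_mul (conj z)).integrableOn
      have h2 : ∫ x in Q, (2 * (conj z * R x).re - ‖z‖ ^ 2) ∂μ =
          2 * (conj z * ∫ x in Q, R x ∂μ).re - ‖z‖ ^ 2 * μ.real Q := by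
        rw [integral_sub (hre.const_mul 2).integrableOn (integrable_const _),
          integral_const_mul, setIntegral_const, smul_eq_mul, mul_comm (μ.real Q), h1]
      rw [h2]
      exact quad_bound z _ _ _ h0 (hQ Q hQm)
  obtain ⟨D, hDc, hDd⟩ := TopologicalSpace.exists_countable_dense ℂ
  have h3 : ∀ᵐ x ∂μ, ∀ z ∈ D, 2 * (conj z * R x).re - ‖z‖ ^ 2 ≤ V x :=
    (ae_ball_iff hDc).2 fun z _ => key z
  filter_upwards [h3] with x hx
  have h4 : ∀ z : ℂ, 2 * (conj z * R x).re - ‖z‖ ^ 2 ≤ V x := by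
    intro z
    have hcl : IsClosed {z : ℂ | 2 * (conj z * R x).re - ‖z‖ ^ 2 ≤ V x} := by
      refine isClosed_le ?_ continuous_const
      fun_prop
    exact hcl.closure_subset_iff.2 (fun y hy => hx y hy) (hDd z)
  have h5 := h4 (R x)
  have h6 : (conj (R x) * R x).re = ‖R x‖ ^ 2 := by
    rw [mul_comm, Complex.mul_conj, Complex.ofReal_re, Complex.normSq_eq_norm_sq]
  rw [h6] at h5
  linarith

end Pool.Agent.H14.SS
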