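import Pool.Agent.H84.SS.Targets

/-!
# The maximal inequality for functions with singular spectral measure
-/

set_option autoImplicit false

namespace Pool.Agent.H14.SS

open MeasureTheory Filter Topology Set ProbabilityTheory
open scoped ENNReal ComplexConjugate
open Pool.Agent.H84.SS
open Pool.Agent.H85.RT (avg GoodWeight Good)
open Pool.Agent.H94.RTB (LGood PD)

universe u v

section

variable {X : Type u} [MeasurableSpace X]

theorem measurable_comp_nat (G : ℕ → X → ℂ) (hG : ∀ m, Measurable (G m)) (N : X → ℕ)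
    (hN : Measurable N) : Measurable fun x => G (N x) x := by
  have h1 : Measurable fun q : ℕ × X => G q.1 q.2 := measurable_from_prod_countable_right hG
  exact h1.comp (hN.prodMk measurable_id)

theorem measurable_ph {T : X ≃ᵐ X} {f g : X → ℂ} (hf : Measurable f) (hg : Measurable g)
    (w : ℕ → ℂ) {N : X → ℕ} {θ : X → ℂ} (hN : Measurable N) (hθ : Measurable θ) (a b c : ℕ) :
    Measurable (ph T f g w N θ a b c) := by
  have h0 : ∀ m : ℕ, Measurable fun x : X => (∑ n ∈ Finset.Icc 1 m, w (n + a) *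
      f (T^[n + b] x) * g (T.symm^[n + c] x)) / (m : ℂ) := by
    intro m
    have h2 : ∀ n ∈ Finset.Icc 1 m, Measurable fun x : X => w (n + a) *
        f (T^[n + b] x) * g (T.symm^[n + c] x) := by
      intro n _
      exact ((hf.comp (T.measurable.iterate (n + b))).const_mul (w (n + a))).mul
        (hg.comp (T.symm.measurable.iterate (n + c)))
    exact (Finset.measurable_fun_sum _ h2).div_const _
  have h1 := measurable_comp_nat (fun m x => (∑ n ∈ Finset.Icc 1 m, w (n + a) *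
      f (T^[n + b] x) * g (T.symm^[n + c] x)) / (m : ℂ)) h0 N hN
  exact hθ.mul h1

theorem norm_ph_le {T : X ≃ᵐ X} {f g : X → ℂ} (hf : ∀ x, ‖f x‖ ≤ 1) (hg : ∀ x, ‖g x‖ ≤ 1)
    {w : ℕ → ℂ} {B : ℝ} (hB : 0 ≤ B) (hw : ∀ n, ‖w n‖ ≤ B) (N : X → ℕ) {θ : X → ℂ}
    (hθ : ∀ x, ‖θ x‖ ≤ 1) (a b c : ℕ) (x : X) : ‖ph T f g w N θ a b c x‖ ≤ B := by
  unfold ph
  rw [norm_mul]
  have h1 : ‖(∑ n ∈ Finset.Icc 1 (N x), w (n + a) * f (T^[n + b] x) *
      g (T.symm^[n + c] x)) / (N x : ℂ)‖ ≤ B := by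
    rw [norm_div, Complex.norm_natCast]
    rcases Nat.eq_zero_or_pos (N x) with h | h
    · rw [h]
      simpa using hB
    · rw [div_le_iff₀ (by exact_mod_cast h)]
      calc ‖∑ n ∈ Finset.Icc 1 (N x), w (n + a) * f (T^[n + b] x) * g (T.symm^[n + c] x)‖
          ≤ ∑ n ∈ Finset.Icc 1 (N x), B := by
            refine norm_sum_le_of_le _ fun n _ => ?_
            rw [norm_mul, norm_mul]
            calc ‖w (n + a)‖ * ‖f (T^[n + b] x)‖ * ‖g (T.symm^[n + c] x)‖ ≤ B * 1 * 1 := by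
                  gcongr
                  · exact hw _
                  · exact hf _
                  · exact hg _
              _ = B := by ring
        _ = B * (N x : ℝ) := by
            rw [Finset.sum_const, Nat.card_Icc, nsmul_eq_mul]
            simp
            ring
  calc ‖θ x‖ * ‖_‖ ≤ 1 * B := by
        gcongr
        exact hθ x
    _ = B := one_mul B

theorem measurable_avg {T : X ≃ᵐ X} {f g : X → ℂ} (hf : Measurable f) (hg : Measurable g)
    (w : ℕ → ℂ) (M : ℕ) : Measurable (avg T f g w M) := by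
  unfold avg
  refine Measurable.div_const ?_ _
  refine Finset.measurable_fun_sum _ fun n _ => ?_
  exact ((hf.comp (T.measurable.iterate _)).mul
    (hg.comp (T.symm.measurable.iterate _))).mul_const _

theorem measurableSet_freq {T : X ≃ᵐ X} {f g : X → ℂ} (hf : Measurable f) (hg : Measurable g)
    (w : ℕ → ℂ) (δ : ℝ) : MeasurableSet {x | ∃ᶠ M in atTop, δ < ‖avg T f g w M x‖} := by
  have h1 : {x | ∃ᶠ M in atTop, δ < ‖avg T f g w M x‖} =
      ⋂ m : ℕ, ⋃ M : ℕ, ⋃ _ : m ≤ M, {x | δ < ‖avg T f g w M x‖} := by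
    ext x
    simp only [mem_ofPred_eq, frequently_atTop, mem_iInter, mem_iUnion, exists_prop]
  rw [h1]
  exact MeasurableSet.iInter fun m => MeasurableSet.iUnion fun M => MeasurableSet.iUnion fun _ =>
    measurableSet_lt measurable_const (measurable_avg hf hg w M).norm

/-- from a bound of the limit functional to the maximal inequality -/
theorem final_bound (μ : Measure X) [IsProbabilityMeasure μ] (T : X ≃ᵐ X) (f g : X → ℂ)
    (w : ℕ → ℂ) (B δ κ : ℝ) (hf : Measurable f) (hg : Measurable g) (hfb : ∀ x, ‖f x‖ ≤ 1)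
    (hgb : ∀ x, ‖g x‖ ≤ 1) (hw : ∀ n, ‖w n‖ ≤ B) (N : ℕ → X → ℕ) (θ : ℕ → X → ℂ)
    (hRT : RTimes N θ) (hph : ∀ i x, ∃ r : ℝ, 0 ≤ r ∧ ph T f g w (N i) (θ i) 0 0 0 x = r ∧
      ((∃ᶠ M in atTop, δ < ‖avg T f g w M x‖) → δ ≤ r))
    (R : ℕ → ℕ → ℕ → X → ℂ) (hR : IsLim μ T f g w N θ R) (hq : ∀ᵐ x ∂μ, ‖R 0 0 0 x‖ ≤ κ) :
    δ * μ.real {x | ∃ᶠ M in atTop, δ < ‖avg T f g w M x‖} ≤ κ := by
  have hB : 0 ≤ B := (norm_nonneg _).trans (hw 0)
  have hA := measurableSet_freq (T := T) hf hg w δ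
  set A : Set X := {x | ∃ᶠ M in atTop, δ < ‖avg T f g w M x‖} with hAdef
  have hint : ∀ i, Integrable (ph T f g w (N i) (θ i) 0 0 0) μ := fun i =>
    Integrable.of_bound (measurable_ph hf hg w (hRT.measN i) (hRT.measθ i) 0 0
      0).aestronglyMeasurable B (Eventually.of_forall fun x =>
        norm_ph_le hfb hgb hB hw (N i) (hRT.bddθ i) 0 0 0 x)
  have h1 : ∀ i, δ * μ.real A ≤ (∫ x in univ, ph T f g w (N i) (θ i) 0 0 0 x ∂μ).re := by
    intro i
    rw [Measure.restrict_univ]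
    have h2 : (∫ x, ph T f g w (N i) (θ i) 0 0 0 x ∂μ).re =
        ∫ x, (ph T f g w (N i) (θ i) 0 0 0 x).re ∂μ := (integral_re (hint i)).symm
    rw [h2]
    have h3 : δ * μ.real A = ∫ x, A.indicator (fun _ => δ) x ∂μ := by
      rw [integral_indicator_const _ hA, smul_eq_mul, mul_comm]
    rw [h3]
    refine integral_mono ((integrable_const δ).indicator hA) (hint i).re fun x => ?_
    obtain ⟨r, hr0, hr1, hr2⟩ := hph i x
    simp only
    rw [hr1]
    change A.indicator (fun _ => δ) x ≤ ((r : ℂ)).re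
    rw [Complex.ofReal_re]
    by_cases hx : x ∈ A
    · rw [indicator_of_mem hx]
      exact hr2 hx
    · rw [indicator_of_notMem hx]
      exact hr0
  have h4 : Tendsto (fun i => (∫ x in univ, ph T f g w (N i) (θ i) 0 0 0 x ∂μ).re)
      (hyperfilter ℕ) (𝓝 (∫ x in univ, R 0 0 0 x ∂μ).re) :=
    (Complex.continuous_re.tendsto _).comp (hR.lim 0 0 0 univ MeasurableSet.univ)
  have h5 : δ * μ.real A ≤ (∫ x in univ, R 0 0 0 x ∂μ).re := ge_of_tendsto' h4 h1
  rw [Measure.restrict_univ] at h5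
  calc δ * μ.real A ≤ (∫ x, R 0 0 0 x ∂μ).re := h5
    _ ≤ ‖∫ x, R 0 0 0 x ∂μ‖ := Complex.re_le_norm _
    _ ≤ κ * μ.real univ := norm_integral_le_of_norm_le_const hq
    _ = κ := by rw [probReal_univ, mul_one]

/-- the conditional correlations of an ergodic system are constant -/
theorem cf_ergodic (μ : Measure X) [IsProbabilityMeasure μ] (T : X ≃ᵐ X) (f : X → ℂ)
    (hT : Ergodic T μ) (hf : Measurable f) (hfb : ∀ x, ‖f x‖ ≤ 1) (b b' : ℕ) :
    ∀ᵐ x ∂μ, cf μ T f b b' x = ∫ y, fp T f b b' y ∂μ := by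
  have hm : MeasurableSpace.invariants T ≤ (inferInstance : MeasurableSpace X) :=
    MeasurableSpace.invariants_le T
  have hmeas : Measurable (fp T f b b') := by
    unfold fp
    exact (hf.comp (T.measurable.iterate _)).mul
      (Complex.continuous_conj.measurable.comp (hf.comp (T.measurable.iterate _)))
  have hint : Integrable (fp T f b b') μ := by
    refine Integrable.of_bound hmeas.aestronglyMeasurable 1 (Eventually.of_forall fun x => ?_)
    unfold fp
    rw [norm_mul, RCLike.norm_conj]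
    exact mul_le_one₀ (hfb _) (norm_nonneg _) (hfb _)
  have h1 : (fun _ => ∫ y, fp T f b b' y ∂μ) =ᵐ[μ] μ[fp T f b b' | MeasurableSpace.invariants T] :=
    by
    refine ae_eq_condExp_of_forall_setIntegral_eq hm hint (fun s _ _ => integrable_const _)
      (fun s hs _ => ?_) aestronglyMeasurable_const
    rw [MeasurableSpace.measurableSet_invariants] at hs
    rw [setIntegral_const]
    rcases hT.toPreErgodic.ae_empty_or_univ hs.1 hs.2 with h | h
    · rw [setIntegral_congr_set h, measureReal_congr h]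
      simp
    · rw [setIntegral_congr_set h, measureReal_congr h]
      simp
  filter_upwards [h1] with x hx
  exact hx.symm

theorem isHat_pf (μ : Measure X) [IsProbabilityMeasure μ] (T : X ≃ᵐ X) (f : X → ℂ)
    (hT : Ergodic T μ) (hf : Measurable f) (hfb : ∀ x, ‖f x‖ ≤ 1) (σ : Measure T1)
    (hσ : IsSpec μ T f σ) : ∀ᵐ x ∂μ, IsHat σ (pf μ T f x) := by
  have h1 : ∀ᵐ x ∂μ, ∀ n : ℤ, cf μ T f n.toNat (-n).toNat x =
      ∫ y, fp T f n.toNat (-n).toNat y ∂μ :=
    ae_all_iff.2 fun n => cf_ergodic μ T f hT hf hfb _ _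
  filter_upwards [h1] with x hx n
  unfold pf
  rw [hx n]
  rcases le_total 0 n with h | h
  · obtain ⟨m, rfl⟩ := Int.eq_ofNat_of_zero_le h
    have h2 := hσ.2 m
    have h3 : (-(m : ℤ)).toNat = 0 := by omega
    rw [Int.toNat_natCast, h3, ← h2]
    rfl
  · obtain ⟨m, hm⟩ := Int.eq_ofNat_of_zero_le (show 0 ≤ -n by omega)
    have h2 := hσ.2 m
    have h3 : n.toNat = 0 := by omega
    have h4 : (-n).toNat = m := by omega
    have h5 : n = -(m : ℤ) := by omega
    rw [h3, h4, h5]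
    calc ∫ t, fourier (-(m : ℤ)) t ∂σ = ∫ t, conj (fourier (m : ℤ) t) ∂σ := by
          refine integral_congr_ae (Eventually.of_forall fun t => ?_)
          exact fourier_neg
      _ = conj (∫ t, fourier (m : ℤ) t ∂σ) := integral_conj
      _ = conj (∫ ω, f (T^[m] ω) * conj (f ω) ∂μ) := by rw [h2]
      _ = ∫ ω, conj (f (T^[m] ω) * conj (f ω)) ∂μ := integral_conj.symm
      _ = ∫ y, fp T f 0 m y ∂μ := by
          refine integral_congr_ae (Eventually.of_forall fun y => ?_)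
          simp only [fp, map_mul, Complex.conj_conj, Function.iterate_zero, id_eq]
          ring

end

theorem pf_MXF (h1 : M_STO.{u}) (h2 : M_LIM.{u}) (h3 : M_INV.{u}) (h4 : M_B12.{u})
    (h5 : M_B13.{u}) (h6 : M_B23.{u}) (h7 : M_PDX.{u}) (h8 : M_PDP.{u}) (h9 : D_DTF) :
    M_MXF.{u} := by
  intro X _ μ _ T f g w p B σ hErg hf hg hfb hgb hw hDR hσ hsing δ hδ
  have hT : MeasurePreserving T μ μ := hErg.toMeasurePreserving
  have hB : 0 ≤ B := (norm_nonneg _).trans (hw.bdd 0)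
  have hfin : IsFiniteMeasure σ := hσ.1
  obtain ⟨N, θ, hRT, hph⟩ := h1 X T f g w δ hf hg hδ
  obtain ⟨R, hR⟩ := h2 X μ T f g w B N θ hf hg hfb hgb hw.bdd hRT
  refine final_bound μ T f g w B δ _ hf hg hfb hgb hw.bdd N θ hRT hph R hR ?_
  have hinv := h3 X μ T f g w B N θ R hf hg hfb hgb hw.bdd hRT hR
  have hb12 := h4 X μ T f g w p B N θ R hT hf hg hfb hgb hw hRT hR
  have hb13 := h5 X μ T f g w p B N θ R hT hf hg hfb hgb hw hRT hR
  have hb23 := h6 X μ T f g w B N θ R hT hf hg hfb hgb hw.bdd hDR hRT hR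
  have hpd3 := h7 X μ T.symm g (mp_symm hT) hg hgb
  have hhat := isHat_pf μ T f hErg hf hfb σ hσ
  obtain ⟨hpd1, hp0⟩ := h8 B w p hw
  filter_upwards [hinv, hb12, hb13, hb23, hpd3, hhat] with x x1 x2 x3 x4 x5 x6
  have htrip : Trip 1 1 (2 * B ^ 2) p (pf μ T f x) (pf μ T.symm g x)
      (fun a b c => R a b c x) := by
    refine ⟨x1, fun c s u => ?_, fun b s u => ?_, fun a s u => ?_⟩
    · rw [one_mul]
      exact x2 c s u
    · rw [one_mul]
      exact x3 b s u
    · exact x4 a s u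
  have key := h9 1 1 (2 * B ^ 2) p (pf μ T f x) (pf μ T.symm g x) (fun a b c => R a b c x) σ
    zero_le_one zero_le_one (by positivity) htrip x6 hsing hpd1 x5
  have h10 : ‖R 0 0 0 x‖ ^ 2 ≤ σ.real (atoms σ) * B ^ 2 := by
    calc ‖R 0 0 0 x‖ ^ 2 ≤ 1 * (σ.real (atoms σ) * (p 0).re) := key
      _ = σ.real (atoms σ) * (p 0).re := one_mul _
      _ ≤ σ.real (atoms σ) * B ^ 2 := mul_le_mul_of_nonneg_left hp0 measureReal_nonneg
  refine abs_le_of_sq_le_sq' ?_ (by positivity) |>.2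
  rw [mul_pow, Real.sq_sqrt measureReal_nonneg, mul_comm]
  exact h10

end Pool.Agent.H14.SS
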