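import Pool.Agent.H84.SS.Targets

/-!
# The correlations of a good weight are positive definite
-/

set_option autoImplicit false

namespace Pool.Agent.H14.SS

open MeasureTheory Filter Topology Set ProbabilityTheory
open scoped ENNReal ComplexConjugate
open Pool.Agent.H84.SS
open Pool.Agent.H85.RT (avg GoodWeight Good)
open Pool.Agent.H94.RTB (LGood PD)

universe u v

/-- a limit of nonnegative real numbers is a nonnegative real number -/
theorem real_of_tendsto (r : ℕ → ℝ) (hr : ∀ n, 0 ≤ r n) (l : ℂ)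
    (h : Tendsto (fun n => (r n : ℂ)) atTop (𝓝 l)) : ∃ x : ℝ, 0 ≤ x ∧ l = (x : ℂ) := by
  have h1 : Tendsto (fun n => ((r n : ℂ)).re) atTop (𝓝 l.re) :=
    (Complex.continuous_re.tendsto l).comp h
  have h2 : Tendsto (fun n => ((r n : ℂ)).im) atTop (𝓝 l.im) :=
    (Complex.continuous_im.tendsto l).comp h
  simp only [Complex.ofReal_re, Complex.ofReal_im] at h1 h2
  refine ⟨l.re, ge_of_tendsto' h1 hr, ?_⟩
  have h3 : l.im = 0 := tendsto_nhds_unique h2 tendsto_const_nhds
  exact Complex.ext (by simp) (by simp [h3])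

theorem sq_sum_eq (s : Finset ℤ) (c : ℤ → ℂ) (g : ℤ → ℂ) :
    ((‖∑ i ∈ s, c i * g i‖ ^ 2 : ℝ) : ℂ) =
      ∑ i ∈ s, ∑ j ∈ s, c i * conj (c j) * (g i * conj (g j)) := by
  rw [Complex.ofReal_pow, ← Complex.mul_conj', map_sum, Finset.sum_mul_sum]
  refine Finset.sum_congr rfl fun i _ => Finset.sum_congr rfl fun j _ => ?_
  rw [map_mul]
  ring

theorem pf_PDP : M_PDP.{u} := by
  intro B w p hw
  constructor
  · intro s c
    obtain ⟨K, hK⟩ : ∃ K : ℕ, ∀ i ∈ s, 0 ≤ i + (K : ℤ) := by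
      refine ⟨s.sup Int.natAbs, fun i hi => ?_⟩
      have h1 : i.natAbs ≤ s.sup Int.natAbs := Finset.le_sup (f := Int.natAbs) hi
      omega
    have hlim : Tendsto (fun N : ℕ => (((∑ n ∈ Finset.Icc 1 N,
        ‖∑ i ∈ s, c i * w (n + (i + (K : ℤ)).toNat)‖ ^ 2) / (N : ℝ) : ℝ) : ℂ)) atTop
        (𝓝 (∑ i ∈ s, ∑ j ∈ s, c i * conj (c j) * p (i - j))) := by
      have h1 : Tendsto (fun N : ℕ => ∑ i ∈ s, ∑ j ∈ s, c i * conj (c j) *
          ((∑ n ∈ Finset.Icc 1 N, w (n + (i + (K : ℤ)).toNat) *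
            conj (w (n + (j + (K : ℤ)).toNat))) / (N : ℂ))) atTop
          (𝓝 (∑ i ∈ s, ∑ j ∈ s, c i * conj (c j) * p (i - j))) := by
        refine tendsto_finsetSum _ fun i hi => tendsto_finsetSum _ fun j hj => ?_
        refine Tendsto.const_mul _ ?_
        have h2 := hw.cor (i + (K : ℤ)).toNat (j + (K : ℤ)).toNat
        have h3 : (((i + (K : ℤ)).toNat : ℤ) - (j + (K : ℤ)).toNat) = i - j := by
          rw [Int.toNat_of_nonneg (hK i hi), Int.toNat_of_nonneg (hK j hj)]
          ring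
        rwa [h3] at h2
      refine h1.congr fun N => ?_
      rw [Complex.ofReal_div, Complex.ofReal_sum, Complex.ofReal_natCast, Finset.sum_div]
      simp only [sq_sum_eq]
      simp only [Finset.sum_div, Finset.mul_sum]
      rw [Finset.sum_congr rfl fun i _ => Finset.sum_comm, Finset.sum_comm]
      refine Finset.sum_congr rfl fun n _ => Finset.sum_congr rfl fun i _ =>
        Finset.sum_congr rfl fun j _ => ?_
      ring
    exact real_of_tendsto _ (fun N => by positivity) _ hlim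
  · have h1 := hw.cor 0 0
    have h2 : Tendsto (fun N : ℕ => ((∑ n ∈ Finset.Icc 1 N, w (n + 0) * conj (w (n + 0))) /
        (N : ℂ)).re) atTop (𝓝 ((p (((0 : ℕ) : ℤ) - (0 : ℕ))).re)) :=
      (Complex.continuous_re.tendsto _).comp h1
    have h3 : (p (((0 : ℕ) : ℤ) - (0 : ℕ))) = p 0 := by simp
    rw [h3] at h2
    refine le_of_tendsto' h2 fun N => ?_
    have h4 : ((∑ n ∈ Finset.Icc 1 N, w (n + 0) * conj (w (n + 0))) / (N : ℂ)) =
        (((∑ n ∈ Finset.Icc 1 N, ‖w n‖ ^ 2) / (N : ℝ) : ℝ) : ℂ) := by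
      rw [Complex.ofReal_div, Complex.ofReal_sum, Complex.ofReal_natCast]
      congr 1
      refine Finset.sum_congr rfl fun n _ => ?_
      rw [Complex.ofReal_pow, ← Complex.mul_conj', add_zero]
    rw [h4, Complex.ofReal_re]
    rcases Nat.eq_zero_or_pos N with h | h
    · subst h
      simpa using sq_nonneg B
    · rw [div_le_iff₀ (by exact_mod_cast h)]
      calc ∑ n ∈ Finset.Icc 1 N, ‖w n‖ ^ 2 ≤ ∑ n ∈ Finset.Icc 1 N, B ^ 2 :=
            Finset.sum_le_sum fun n _ => pow_le_pow_left₀ (norm_nonneg _) (hw.bdd n) 2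
        _ = B ^ 2 * N := by
            rw [Finset.sum_const, Nat.card_Icc, nsmul_eq_mul]
            simp
            ring

end Pool.Agent.H14.SS
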