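import Pool.Agent.H84.SS.Targets

/-!
# The quadratic form of two Fourier transforms is a square norm
-/

set_option autoImplicit false

namespace Pool.Agent.H14.SS

open MeasureTheory Filter Topology Set ProbabilityTheory
open scoped ENNReal ComplexConjugate
open Pool.Agent.H84.SS

theorem measurable_ch (a b : ℤ) : Measurable (ch a b) := by
  unfold ch
  exact (((fourier a).continuous.comp continuous_fst).mul
    ((fourier b).continuous.comp continuous_snd)).measurable

theorem norm_ch (a b : ℤ) (z : T1 × T1) : ‖ch a b z‖ = 1 := by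
  unfold ch
  rw [norm_mul, fourier_apply, fourier_apply, Circle.norm_coe, Circle.norm_coe, one_mul]

theorem integrable_ch (ν : Measure (T1 × T1)) [IsFiniteMeasure ν] (a b : ℤ) :
    Integrable (ch a b) ν :=
  Integrable.of_bound (measurable_ch a b).aestronglyMeasurable 1
    (Eventually.of_forall fun z => (norm_ch a b z).le)

theorem ch_mul_conj (a b a' b' : ℤ) (z : T1 × T1) :
    ch a b z * conj (ch a' b' z) = ch (a - a') (b - b') z := by
  unfold ch
  rw [map_mul, sub_eq_add_neg, sub_eq_add_neg, fourier_add, fourier_add, fourier_neg,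
    fourier_neg]
  ring

theorem pf_QF : D_QF := by
  intro σ σ' _ _ p q hp hq s u
  have h1 : qz p q s u = ((∫ z, ‖∑ i ∈ s, u i * ch i.1 i.2 z‖ ^ 2 ∂(σ.prod σ') : ℝ) : ℂ) := by
    rw [← integral_complex_ofReal]
    have h2 : ∀ z, ((‖∑ i ∈ s, u i * ch i.1 i.2 z‖ ^ 2 : ℝ) : ℂ) =
        ∑ i ∈ s, ∑ j ∈ s, u i * conj (u j) * ch (i.1 - j.1) (i.2 - j.2) z := by
      intro z
      rw [Complex.ofReal_pow, ← Complex.mul_conj', map_sum, Finset.sum_mul_sum]
      refine Finset.sum_congr rfl fun i _ => Finset.sum_congr rfl fun j _ => ?_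
      rw [map_mul, ← ch_mul_conj]
      ring
    simp only [h2]
    rw [integral_finsetSum _ fun i _ => integrable_finsetSum _ fun j _ =>
      (integrable_ch _ _ _).const_mul _]
    unfold qz
    refine Finset.sum_congr rfl fun i _ => ?_
    rw [integral_finsetSum _ fun j _ => (integrable_ch _ _ _).const_mul _]
    refine Finset.sum_congr rfl fun j _ => ?_
    rw [integral_const_mul]
    have h3 : ∫ z, ch (i.1 - j.1) (i.2 - j.2) z ∂(σ.prod σ') =
        p (i.1 - j.1) * q (i.2 - j.2) := by
      rw [← hp, ← hq]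
      exact integral_prod_mul (fun x => (fourier (i.1 - j.1) x : ℂ))
        (fun y => (fourier (i.2 - j.2) y : ℂ))
    rw [h3, mul_assoc, mul_assoc]
  rw [h1, Complex.ofReal_re]

end Pool.Agent.H14.SS
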